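import Pool.Agent.SZT.StmtsC
import Pool.Agent.Helper9_UBT.Glb

/-!
# Squad SZT, row GPR: good primes bound the torsion
-/

set_option autoImplicit false

namespace Pool.Agent.SZT.H62

open Polynomial NumberField IsDedekindDomain H58Q

theorem res_eq {R : Type} [CommRing R] [Nontrivial R] (f : R[X]) (hm : f.Monic)
    (hd : f.natDegree = 5) : resultant f (derivative f) 5 4 = discr f := by
  have h1 := resultant_deriv (f := f) (natDegree_pos_iff_degree_pos.1 (by rw [hd]; norm_num))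
  rw [hd, hm.leadingCoeff] at h1
  have h4 : (-1 : R) ^ (5 * (5 - 1) / 2) = 1 := by norm_num
  rw [h4, mul_one, one_mul] at h1
  exact h1

theorem discr_map5 {R S : Type} [CommRing R] [Nontrivial R] [CommRing S] [Nontrivial S]
    (φ : R →+* S) (f : R[X]) (hm : f.Monic) (hd : f.natDegree = 5) :
    discr (f.map φ) = φ (discr f) := by
  rw [← res_eq f hm hd, ← res_eq (f.map φ) (hm.map φ) (by rw [hm.natDegree_map, hd]),
    derivative_map, resultant_map_map]

theorem sep_of_discr {k : Type} [Field k] (f : k[X]) (hm : f.Monic) (hd : f.natDegree = 5)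
    (h : discr f ≠ 0) : f.Separable := by
  have h4 : (derivative f).natDegree ≤ 4 := by
    refine (natDegree_derivative_le _).trans ?_
    rw [hd]
  obtain ⟨p, q, -, -, h1⟩ := exists_mul_add_mul_eq_C_resultant (m := 5) (n := 4) f (derivative f)
    hd.le h4 (by simp)
  rw [res_eq f hm hd] at h1
  refine ⟨C (discr f)⁻¹ * p, C (discr f)⁻¹ * q, ?_⟩
  have h2 : C (discr f)⁻¹ * p * f + C (discr f)⁻¹ * q * derivative f
      = C (discr f)⁻¹ * (f * p + derivative f * q) := by ring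
  rw [h2, h1, ← C_mul, inv_mul_cancel₀ h, C_1]

theorem discr_ne {k : Type} [Field k] [CharZero k] (f : k[X]) (hm : f.Monic)
    (hd : f.natDegree = 5) (hs : Squarefree f) : discr f ≠ 0 := by
  have h1 : IsCoprime f (derivative f) := (PerfectField.separable_iff_squarefree.2 hs)
  have h2 := resultant_ne_zero f (derivative f) h1
  have h3 : (derivative f).natDegree = 4 := by
    rw [natDegree_derivative, hd]
  rw [hd, h3, res_eq f hm hd] at h2
  exact h2

theorem gp1 (hLoc : UBT.LocStmt) (K : Type) [Field K] [NumberField K] (d : ℕ)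
    (hK : Module.finrank ℚ K ≤ d) (p : ℕ) (hp : p.Prime) (hp2 : p ≠ 2) (G : K[X])
    [Fact (Odd G.natDegree)] (hmon : G.Monic) (hdeg : G.natDegree = 5)
    (hint : ∀ n, IsIntegral ℤ (G.coeff n)) (hD : discr G ≠ 0)
    (hN : |Algebra.norm ℚ (discr G)| < p) (c : ClassGroup (Q K G)) (hc : IsOfFinOrder c) :
    ∃ m a : ℕ, orderOf c = m * p ^ a ∧ 1 ≤ m ∧ m ≤ 2 ^ ((p ^ d) ^ 8) := by
  have : Fact p.Prime := ⟨hp⟩
  -- lift to the ring of integers
  obtain ⟨F, hF, hFd, hFm⟩ : ∃ F : (𝓞 K)[X], F.map (algebraMap (𝓞 K) K) = G ∧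
      F.natDegree = G.natDegree ∧ F.Monic := by
    apply lifts_and_natDegree_eq_and_monic _ hmon
    rw [lifts_iff_coeff_lifts]
    intro n
    exact ⟨⟨G.coeff n, hint n⟩, rfl⟩
  -- a prime over p
  have hpu : ¬ IsUnit ((p : ℕ) : 𝓞 K) := by
    intro hu
    have h1 := (hu.map (Algebra.norm ℤ))
    have h4 : ((p : ℕ) : 𝓞 K) = algebraMap ℤ (𝓞 K) p := by simp
    rw [h4, Algebra.norm_algebraMap, RingOfIntegers.rank, isUnit_pow_iff Module.finrank_pos.ne',
      Int.isUnit_iff_natAbs_eq, Int.natAbs_natCast] at h1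
    exact hp.one_lt.ne' h1
  obtain ⟨w, hpw⟩ : ∃ w : HeightOneSpectrum (𝓞 K), ((p : ℕ) : 𝓞 K) ∈ w.asIdeal := by
    obtain ⟨w0, hw0, hpw0⟩ := exists_max_ideal_of_mem_nonunits (mem_nonunits_iff.2 hpu)
    have hp0 : ((p : ℕ) : 𝓞 K) ≠ 0 := Nat.cast_ne_zero.2 hp.ne_zero
    have hw0b : w0 ≠ ⊥ := by
      rintro rfl
      exact hp0 (Ideal.mem_bot.1 hpw0)
    exact ⟨⟨w0, hw0.isPrime, hw0b⟩, hpw0⟩
  set V := HeightOneSpectrum.valuationSubringAtPrime K w with hV
  have hmax : w.asIdeal.IsMaximal := w.isMaximal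
  have hloc : IsLocalization.AtPrime V w.asIdeal :=
    inferInstanceAs (IsLocalization w.asIdeal.primeCompl V)
  have hdvr : IsDiscreteValuationRing V :=
    IsLocalization.AtPrime.isDiscreteValuationRing_of_dedekind_domain (𝓞 K) w.ne_bot V
  obtain ⟨hfin, hcard⟩ := UBT.H9.card_le K w p Fact.out hpw
  let e : (𝓞 K ⧸ w.asIdeal) ≃+* IsLocalRing.ResidueField V :=
    IsLocalization.AtPrime.equivQuotMaximalIdeal w.asIdeal V
  have hfin' : Finite (IsLocalRing.ResidueField V) := Finite.of_equiv _ e.toEquiv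
  have hchar : CharP (IsLocalRing.ResidueField V) p := by
    have h0 : ((p : ℕ) : IsLocalRing.ResidueField V) = 0 := by
      have h1 : ((p : ℕ) : 𝓞 K ⧸ w.asIdeal) = 0 := by
        have := Ideal.Quotient.eq_zero_iff_mem.2 hpw
        simpa using this
      have h2 := congrArg e h1
      simpa using h2
    have h3 := CharP.ringChar_of_prime_eq_zero (Fact.out : p.Prime) h0
    rw [← h3]
    exact ringChar.charP _
  -- the discriminant is not in w
  set D0 : 𝓞 K := discr F with hD0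
  have hD0K : algebraMap (𝓞 K) K D0 = discr G := by
    rw [hD0, ← hF, discr_map5 _ F hFm (by rw [hFd, hdeg])]
  have hDw : D0 ∉ w.asIdeal := by
    intro hmem
    have h1 : Ideal.absNorm w.asIdeal ∣ Ideal.absNorm (Ideal.span {D0}) := by
      apply Ideal.absNorm_dvd_absNorm_of_le
      rw [Ideal.span_singleton_le_iff_mem]
      exact hmem
    rw [Ideal.absNorm_span_singleton] at h1
    have h2 : Ideal.absNorm w.asIdeal ∣ Ideal.absNorm (Ideal.span {((p : ℕ) : 𝓞 K)}) := by
      apply Ideal.absNorm_dvd_absNorm_of_le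
      rw [Ideal.span_singleton_le_iff_mem]
      exact hpw
    have h3 : Ideal.absNorm (Ideal.span {((p : ℕ) : 𝓞 K)}) = p ^ (Module.finrank ℚ K) := by
      rw [Ideal.absNorm_span_singleton]
      have h4 : ((p : ℕ) : 𝓞 K) = algebraMap ℤ (𝓞 K) p := by simp
      rw [h4, Algebra.norm_algebraMap, RingOfIntegers.rank, Int.natAbs_pow, Int.natAbs_natCast]
    rw [h3, Nat.dvd_prime_pow hp] at h2
    obtain ⟨k, -, hk⟩ := h2
    have hk0 : k ≠ 0 := by
      rintro rfl
      rw [pow_zero, Ideal.absNorm_eq_one_iff] at hk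
      exact hmax.ne_top hk
    have h5 : p ∣ (Algebra.norm ℤ D0).natAbs := by
      refine (dvd_pow_self p hk0).trans ?_
      rw [← hk]
      exact h1
    have h6 : Algebra.norm ℤ D0 ≠ 0 := by
      rw [Ne, Algebra.norm_eq_zero_iff]
      intro h0
      apply hD
      rw [← hD0K, h0, map_zero]
    have h7 : p ≤ (Algebra.norm ℤ D0).natAbs :=
      Nat.le_of_dvd (Int.natAbs_pos.2 h6) h5
    have h8 : ((Algebra.norm ℤ D0 : ℤ) : ℚ) = Algebra.norm ℚ (discr G) := by
      rw [← hD0K]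
      exact Algebra.coe_norm_int D0
    rw [← h8, ← Int.cast_abs, Int.abs_eq_natAbs, Int.cast_natCast] at hN
    have h9 : (Algebra.norm ℤ D0).natAbs < p := by exact_mod_cast hN
    omega
  -- the polynomial over V
  set f : V[X] := F.map (algebraMap (𝓞 K) V) with hf
  have hfm : f.Monic := hFm.map _
  have hfd : f.natDegree = 5 := by rw [hf, hFm.natDegree_map, hFd, hdeg]
  have hfG : f.map (algebraMap V K) = G := by
    rw [hf, Polynomial.map_map, ← IsScalarTower.algebraMap_eq, hF]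
  have hsep : (f.map (IsLocalRing.residue V)).Separable := by
    apply sep_of_discr _ (hfm.map _) (by rw [hfm.natDegree_map, hfd])
    rw [hf, Polynomial.map_map, discr_map5 _ F hFm (by rw [hFd, hdeg]), RingHom.comp_apply, Ne,
      IsLocalRing.residue_eq_zero_iff]
    intro h1
    exact hDw ((IsLocalization.AtPrime.to_map_mem_maximal_iff V w.asIdeal D0).1 h1)
  clear_value f
  clear hf
  subst hfG
  obtain ⟨m, k, h1, h2, h3⟩ := hLoc V K p hp2 f 2 hfm hfd hsep c hc
  refine ⟨m, k, h1, h2, h3.trans ?_⟩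
  apply Nat.pow_le_pow_right (by norm_num)
  apply Nat.pow_le_pow_left
  rw [← Nat.card_congr e.toEquiv]
  exact hcard.trans (Nat.pow_le_pow_right hp.pos hK)

theorem gpr (hLoc : UBT.LocStmt) (_hDed : UBT.DedStmt) : GprStatement := by
  intro d Δ
  obtain ⟨p, hp1, hp⟩ := Nat.exists_infinite_primes (⌈Δ⌉₊ + 3)
  obtain ⟨q, hq1, hq⟩ := Nat.exists_infinite_primes (p + 1)
  refine ⟨2 ^ ((p ^ d) ^ 8) * 2 ^ ((q ^ d) ^ 8), ?_⟩
  intro K _ _ hK Y hmon hdeg hint hΔ c hc
  have hD : discr Y.f ≠ 0 := discr_ne Y.f hmon hdeg Y.sqfree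
  have hpΔ : Δ < p := by
    have h1 := Nat.le_ceil Δ
    have h2 : ((⌈Δ⌉₊ + 3 : ℕ) : ℝ) ≤ p := by exact_mod_cast hp1
    push_cast at h2
    linarith
  have hNp : |Algebra.norm ℚ (discr Y.f)| < (p : ℚ) := by
    have h3 : ((|Algebra.norm ℚ (discr Y.f)| : ℚ) : ℝ) < p := lt_of_le_of_lt hΔ hpΔ
    exact_mod_cast h3
  have hpq : p < q := hq1
  have hNq : |Algebra.norm ℚ (discr Y.f)| < (q : ℚ) := by
    refine hNp.trans ?_
    exact_mod_cast hpq
  obtain ⟨m, a, h1, h2, h3⟩ := gp1 hLoc K d hK p hp (by omega) Y.f hmon hdeg hint hD hNp c hc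
  obtain ⟨m', b, h1', h2', h3'⟩ := gp1 hLoc K d hK q hq (by omega) Y.f hmon hdeg hint hD hNq c hc
  have hcop : Nat.Coprime (p ^ a) (q ^ b) :=
    Nat.Coprime.pow _ _ ((Nat.coprime_primes hp hq).2 hpq.ne)
  have hdv : p ^ a ∣ m' := by
    have h4 : p ^ a ∣ m' * q ^ b := by
      rw [← h1', h1]
      exact dvd_mul_left _ _
    exact hcop.dvd_of_dvd_mul_right h4
  have hle : p ^ a ≤ m' := Nat.le_of_dvd (by omega) hdv
  rw [h1]
  exact Nat.mul_le_mul h3 (hle.trans h3')

end Pool.Agent.SZT.H62
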